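import Pool.Agent.H859.AL.Cuse

/-!
# The Tate conjecture over the extensions of degree `2 ^ i` of the finite field of constants, for a quadratic
# twist of slowly growing degree of 100 percent of the surfaces in a family of positive density

Let `k` be any finite field of odd characteristic, `K = k(t)`, `g ≥ 1`. Let `m ≠ 0` be a polynomial and `f₁`
a monic polynomial of degree `2 g + 1` over `k[t]` whose discriminant is not divisible by the square of a
prime divisor of `m`. Let `F_N` be the set of the polynomials `f(x) = x ^ (2 g + 1) + ∑ f_j x ^ j` over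
`k[t]` with `deg f_j ≤ 2 N (2 g + 1 - j)` for which

* the polynomial over `k` with the coefficients of `t ^ (2 N (2 g + 1 - j))` in the `f_j` is irreducible
  (good and irreducible reduction at infinity);
* the discriminant of `f` is squarefree;
* `f` is congruent to `f₁` modulo `m ^ 2` (the fibres over the zeros of `m` may be prescribed).

For `f ∈ F_N` the equation `y ^ 2 = f(x, t)` defines a smooth projective surface `X_f` over `k` with a map to
the line, a double cover of a rational ruled surface, with a section (the points at infinity). For `g = 1`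
these are elliptic surfaces with `12 N` nodal fibres over the algebraic closure (rational for `N = 1`, K3
for `N = 2`, of Kodaira dimension one for `N ≥ 3`), and for `g ≥ 2` they are surfaces of general type. They
are geometrically simply connected (they lift to characteristic zero, and there they can be deformed to
`y ^ 2 = x ^ (2 g + 1) + h(t)`, a fibration over the sphere with a section and with simply connected cuspidal
fibres). The `F_N` are a family of positive density among all the equations of the given height.

For a squarefree polynomial `D` let `X_{f, D}` be the smooth projective relatively minimal surface over the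
line with the generic fibre `y ^ 2 = D ^ (2 g + 1) f(x / D)`, the quadratic twist of the generic fibre of
`X_f`, and let `J_D` be the Jacobian of the generic fibre. For `g = 1` this is an elliptic surface with a
section and with singular fibres, hence geometrically simply connected.

Theorem. Let `w(N)` be ANY sequence of natural numbers which tends to infinity. There is a sequence `v(N)`
which tends to infinity such that for 100 percent of the `f ∈ F_N` (the proportion tends to `1` as `N` tends
to infinity) there is a squarefree polynomial `D` of degree at most `w(N)` such that for ALL the extensions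
`k'` of `k` of degree `2 ^ i`, `i ≤ v(N)`, multiplication by two is bijective on `J_D(k'(t))`, and all classes
of 2-power order in the Tate-Shafarevich group of `J_D` over `k'(t)` are zero, even without a condition at
infinity.

The Brauer group of the surface `X_{f, D}` over `k'` is the Tate-Shafarevich group of `J_D` over `k'(t)`
(Artin, Grothendieck). So its 2-primary part is zero, and by the theorem of Artin, Tate and Milne the map
`c_X` of the problem is surjective for `X = X_{f, D}` over `k'`, for all primes `ℓ`: the Tate conjecture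
holds for these surfaces over all the fields `k'` of degree `2 ^ i ≤ 2 ^ v(N)` over `k`, and `J_D(k'(t))` is
a finite group of odd order (Lang, Neron), so all the Tate classes over `k'` are combinations of the section
and of the components of the fibres. The geometric genus of the surfaces and the number of the fields `k'`
tend to infinity, but the degree of the twist may grow as slowly as we want, and for given `v` there is ONE
polynomial `P`, for every `ε > 0`, such that for large `N` for all but `ε |F_N|` of the `f ∈ F_N` there is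
a divisor `D` of `P` which is good for all `i ≤ v`.

Here `J(E)` is given as the Picard group of the affine coordinate ring `E[x, y] / (y ^ 2 - F)` (the curve
has one point at infinity, which is rational), and the Tate-Shafarevich group is defined by continuous
cocycles on the absolute Galois group with values in `J` of the separable closure.

What was known. The Tate conjecture is known for rational, K3 and abelian surfaces, products of curves and
surfaces which are dominated by these. The library and this run have positive proportions (an unspecified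
constant) of such fibrations without a twist (`MP_89bcae_ag.SurfacesOverTwoCovers` of the run 63374d34 over
one given extension; `MP_89bcae_ag.AllTowersOverGivenCover` of this run). The bound
`C (1 - 1 / (32 g)) ^ r` for the exceptional sets is from `MP_60d5ce_nt.SmallTwistOfAlmostAll` of this run by
the same author; see also `MP_7f58ab_ag.OddBrauerGroupsAfterTwist` and
`MP_72e2e6_nt.HundredPercentAfterTwist` (over given towers of double covers of the line). New here is the
tower of the constant extensions, all `i ≤ v(N)` at once.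

Proof. The constant `C` does not depend on the finite set `T` of primes whose divisors are used for the
twist. The set `T` consists of `i` primes of `k[t]` of degrees divisible by `2 ^ i`. They split completely in
`k'(t)` for all `k'` of degree `2 ^ j`, `j ≤ i`, and `k'(t)` is an unramified Galois extension of `k(t)`, so it
belongs to the class of the theorem on the exceptional sets. A diagonal argument gives `v(N)`.

Helper files: `Pool/Agent/H859/AL/` (helper859, new); `Pool/Agent/H859/TWC/`, `Pool/Agent/H859/SC/`
(helper859), mostly after the files of the projects PJ (helper352), JM, TW (helper874) with parts by many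
helpers of the run 63374d34; classification of quadratic forms: helper747; Gram matrices: helper644.
-/

set_option autoImplicit false
set_option linter.all false

namespace Pool.Agent.Results.MP_1bad5e_ag.AlmostAllOverConstantTower

open Polynomial Filter IsDedekindDomain Topology
open Pool.Agent.N874.Jac (UniquelyTwoDivisible ShaTwoTrivial)
open scoped Classical

/-- The monic polynomials of degree `2 g + 1` over `k[t]` and height at most `2 N`. -/
def Polynomials (k : Type) [Field k] (g N : ℕ) : Set k[X][X] :=
  {f | f.Monic ∧ f.natDegree = 2 * g + 1 ∧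
    ∀ j ≤ 2 * g, (f.coeff j).natDegree ≤ 2 * N * (2 * g + 1 - j)}

/-- The reduction at infinity of `f`. -/
noncomputable def atInfinity {k : Type} [Field k] (g N : ℕ) (f : k[X][X]) : k[X] :=
  X ^ (2 * g + 1) + ∑ j ∈ Finset.range (2 * g + 1),
    C ((f.coeff j).coeff (2 * N * (2 * g + 1 - j))) * X ^ j

/-- The surfaces `X_f : y ^ 2 = f(x, t)` of the family `F_N`: `f` is monic of degree `2 g + 1` and height at
most `2 N`, irreducible at infinity, with squarefree discriminant, congruent to `f₁` modulo `m ^ 2`. -/
def Surfaces {k : Type} [Field k] (g : ℕ) (m : k[X]) (f₁ : k[X][X]) (N : ℕ) : Set k[X][X] :=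
  {f ∈ Polynomials k g N | Irreducible (atInfinity g N f) ∧ Squarefree f.discr ∧
    ∀ j, m ^ 2 ∣ f.coeff j - f₁.coeff j}

/-- The polynomial `F(x, t)` over the extension `k'` of `k`, as a polynomial in `x` over `k'(t)`. -/
noncomputable def overConstants {k : Type} [Field k] (k' : Type) [Field k'] [Algebra k k']
    (F : k[X][X]) : (FractionRing k'[X])[X] :=
  (F.map (mapRingHom (algebraMap k k'))).map (algebraMap k'[X] (FractionRing k'[X]))

/-- The surface `y ^ 2 = F(x, t)` over the extension `k'` of `k` has no 2-part: multiplication by two is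
bijective on `J(k'(t))`, `J` the Jacobian of the generic fibre, and every class of 2-power order in
`H ^ 1 (k'(t), J)` which is zero over the completions of `k'(t)` at all primes of `k'[t]` is zero. -/
def NoTwoPart {k : Type} [Field k] (k' : Type) [Field k'] [Algebra k k'] (F : k[X][X]) : Prop :=
  UniquelyTwoDivisible (overConstants k' F) ∧ ShaTwoTrivial (overConstants k' F) k'[X]

/-- For some squarefree `D` of degree at most `w` the quadratic twist `y ^ 2 = D ^ (2 g + 1) f(x / D, t)` of
the surface `y ^ 2 = f(x, t)` has no 2-part over all the extensions of `k` of the degrees `2 ^ i`,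
`i ≤ v`. -/
def HasGoodTwist {k : Type} [Field k] (w v : ℕ) (f : k[X][X]) : Prop :=
  ∃ D : k[X], Squarefree D ∧ D.natDegree ≤ w ∧
    ∀ (k' : Type) [Field k'] [Algebra k k'] (i : ℕ), i ≤ v → Module.finrank k k' = 2 ^ i →
      NoTwoPart k' (f.scaleRoots D)

/-- Let `g ≥ 1`, `k` a finite field of odd characteristic, `m ≠ 0` and `f₁` monic of degree `2 g + 1` over
`k[t]` such that the discriminant of `f₁` is not divisible by the square of a prime divisor of `m`. The
family of surfaces `F_N` has positive density in the set of all equations of the same height. For every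
sequence `w(N)` which tends to infinity there is a sequence `v(N)` which tends to infinity such that the
proportion of the `f ∈ F_N` for which there is a squarefree polynomial `D` of degree at most `w(N)` such
that for the Jacobian `J_D` of `y ^ 2 = D ^ (2 g + 1) f(x / D)` and ALL the extensions `k'` of `k` of degree
`2 ^ i`, `i ≤ v(N)`, multiplication by two is bijective on `J_D(k'(t))` and the 2-primary part of the
Tate-Shafarevich group of `J_D` over `k'(t)`, that is of the Brauer group of the surface over `k'`, is zero,
tends to `1`. -/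
theorem result (g : ℕ) (hg : 1 ≤ g) (k : Type) [Field k] [Finite k] (hp : (2 : k) ≠ 0)
    (m : k[X]) (hm : m ≠ 0) (f₁ : k[X][X]) (hf₁ : f₁.Monic) (hd₁ : f₁.natDegree = 2 * g + 1)
    (hdisc : ∀ P : k[X], Irreducible P → P ∣ m → ¬ P ^ 2 ∣ f₁.discr) :
    (∀ N : ℕ, (Polynomials k g N).Finite) ∧
    (∃ c : ℝ, 0 < c ∧ ∀ᶠ N : ℕ in atTop, 0 < (Surfaces g m f₁ N).ncard ∧
      c * ((Polynomials k g N).ncard : ℝ) ≤ ((Surfaces g m f₁ N).ncard : ℝ)) ∧
    ∀ w : ℕ → ℕ, Tendsto w atTop atTop → ∃ v : ℕ → ℕ, Tendsto v atTop atTop ∧
      Tendsto (fun N : ℕ => ({f ∈ Surfaces g m f₁ N | HasGoodTwist (w N) (v N) f}.ncard : ℝ) /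
        ((Surfaces g m f₁ N).ncard : ℝ)) atTop (𝓝 1) := by
  have hall : ∀ N, Polynomials k g N = {f : k[X][X] | Pool.Agent.H859.PJ.HtA g (2 * N) f} := by
    intro N
    ext f
    exact ⟨fun h => ⟨h.1, h.2.1, h.2.2⟩, fun h => ⟨h.mon, h.deg, h.ht⟩⟩
  have hfam : ∀ N, Surfaces g m f₁ N = Pool.Agent.H859.AL.Fam g N (m ^ 2) f₁ := by
    intro N
    ext f
    constructor
    · rintro ⟨h1, h2, h3, h4⟩
      exact ⟨⟨h1.1, h1.2.1, h1.2.2⟩, (Pool.Agent.H859.AL.irrInf_iff N f).2 h2,
        (Pool.Agent.H859.AL.sq_discr h1.1 h1.2.1).2 h3, h4⟩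
    · rintro ⟨h1, h2, h3, h4⟩
      exact ⟨⟨h1.mon, h1.deg, h1.ht⟩, (Pool.Agent.H859.AL.irrInf_iff N f).1 h2,
        (Pool.Agent.H859.AL.sq_discr h1.mon h1.deg).1 h3, h4⟩
  have hGM := Pool.Agent.H859.TWC.goodM_sq hm hf₁ hd₁ hdisc
  have hfin : ∀ N, (Polynomials k g N).Finite := fun N => by
    rw [hall]
    exact (Pool.Agent.H859.N415.PJMAIN.ht_card (k := k) g (2 * N)).1
  have hfinF : ∀ N, (Surfaces g m f₁ N).Finite := fun N => (hfin N).subset fun f hf => hf.1
  have hq : (0 : ℝ) < Nat.card k := by exact_mod_cast Nat.card_pos
  have hpos : ∃ c : ℝ, 0 < c ∧ ∀ᶠ N : ℕ in atTop, 0 < (Surfaces g m f₁ N).ncard ∧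
      c * ((Polynomials k g N).ncard : ℝ) ≤ ((Surfaces g m f₁ N).ncard : ℝ) := by
    obtain ⟨c, hc, N₀, hN₀⟩ := Pool.Agent.H859.AL.fam_pos hg hp hGM
    refine ⟨c / (Nat.card k : ℝ) ^ (2 * g + 1), by positivity, ?_⟩
    filter_upwards [eventually_ge_atTop N₀] with N hN
    obtain ⟨hF, hle⟩ := hN₀ N hN
    rw [hfam]
    have h1 : (0 : ℝ) < ((Pool.Agent.H859.AL.Fam g N (m ^ 2) f₁).ncard : ℝ) :=
      lt_of_lt_of_le (by positivity) hle
    refine ⟨by exact_mod_cast h1, ?_⟩
    have h2 : ((Polynomials k g N).ncard : ℝ) ≤
        (Nat.card k : ℝ) ^ (2 * N * Pool.Agent.H859.PJ.ddA g) * (Nat.card k : ℝ) ^ (2 * g + 1) := by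
      rw [hall, ← pow_add]
      exact_mod_cast (Pool.Agent.H859.N415.PJMAIN.ht_card (k := k) g (2 * N)).2
    calc c / (Nat.card k : ℝ) ^ (2 * g + 1) * ((Polynomials k g N).ncard : ℝ)
        ≤ c / (Nat.card k : ℝ) ^ (2 * g + 1) *
          ((Nat.card k : ℝ) ^ (2 * N * Pool.Agent.H859.PJ.ddA g) *
            (Nat.card k : ℝ) ^ (2 * g + 1)) := by gcongr
      _ = c * (Nat.card k : ℝ) ^ (2 * N * Pool.Agent.H859.PJ.ddA g) := by field_simp
      _ ≤ _ := hle
  refine ⟨hfin, hpos, fun w hw => ?_⟩
  obtain ⟨C, -, hC⟩ := Pool.Agent.H859.AL.final_almost hg hp (FractionRing k[X]) hGM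
  obtain ⟨c, hc, hpos'⟩ := hpos
  have hg' : (1 : ℝ) ≤ g := by exact_mod_cast hg
  have hρ1 : (1 : ℝ) / (32 * g) ≤ 1 / 32 := by
    apply one_div_le_one_div_of_le (by norm_num)
    linarith
  have hρ2 : (0 : ℝ) < 1 / (32 * g) := by positivity
  -- the bound for fixed `r`
  have hr : ∀ r : ℕ, ∀ᶠ N : ℕ in atTop,
      ({f ∈ Surfaces g m f₁ N | ¬ HasGoodTwist (w N) r f}.ncard : ℝ) ≤
        C * (1 - 1 / (32 * g)) ^ r * ((Surfaces g m f₁ N).ncard : ℝ) := by
    intro r
    obtain ⟨T, hTr, hT⟩ := Pool.Agent.H859.AL.exists_deg k (2 ^ r) (4 * g + 3) r (by positivity)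
    obtain ⟨N₀, hN₀⟩ := hC T fun Q hQ => ⟨(hT Q hQ).1, (hT Q hQ).2.1, (hT Q hQ).2.2.2⟩
    filter_upwards [eventually_ge_atTop N₀,
      hw.eventually_ge_atTop (∏ Q ∈ T, Q).natDegree] with N hN hwN
    have h1 := hN₀ N hN
    rw [hTr] at h1
    rw [hfam]
    refine le_trans ?_ h1
    have hfin' : {f ∈ Pool.Agent.H859.AL.Fam g N (m ^ 2) f₁ |
        ¬ Pool.Agent.H859.AL.GoodTw (FractionRing k[X]) T f}.Finite :=
      (hfin N).subset fun f hf => by
        have : f ∈ Surfaces g m f₁ N := by rw [hfam]; exact hf.1
        exact this.1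
    have hT0 : (∏ Q ∈ T, Q) ≠ 0 := Finset.prod_ne_zero_iff.2 fun Q hQ => (hT Q hQ).2.1.ne_zero
    have hTsq : Squarefree (∏ Q ∈ T, Q) := by
      refine Finset.squarefree_prod_of_pairwise_isCoprime ?_ fun Q hQ => (hT Q hQ).2.1.squarefree
      intro P hP Q hQ hPQ
      refine ((hT P hP).2.1.coprime_iff_not_dvd.2 fun hd => hPQ ?_).isRelPrime
      exact Polynomial.eq_of_monic_of_associated (hT P hP).1 (hT Q hQ).1
        ((hT P hP).2.1.associated_of_dvd (hT Q hQ).2.1 hd)
    have hsub : {f ∈ Pool.Agent.H859.AL.Fam g N (m ^ 2) f₁ | ¬ HasGoodTwist (w N) r f} ⊆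
        {f ∈ Pool.Agent.H859.AL.Fam g N (m ^ 2) f₁ |
          ¬ Pool.Agent.H859.AL.GoodTw (FractionRing k[X]) T f} := by
      rintro f ⟨hf, hno⟩
      refine ⟨hf, fun hgt => hno ?_⟩
      obtain ⟨D, hD, h⟩ := Pool.Agent.H859.AL.const_use hp
        (fun Q hQ => ⟨(hT Q hQ).1, (hT Q hQ).2.1⟩) hf.1 hf.2.1 hf.2.2.1 hgt
      refine ⟨D, hTsq.squarefree_of_dvd hD, (natDegree_le_of_dvd hD hT0).trans hwN, ?_⟩
      intro k' _ _ i hi hk'
      exact h k' i hk' fun Q hQ => (pow_dvd_pow 2 hi).trans (hT Q hQ).2.2.1
    exact_mod_cast Set.ncard_le_ncard hsub hfin'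
  obtain ⟨v, hv, hvb⟩ := Pool.Agent.H859.AL.diag _ hr
  refine ⟨v, hv, ?_⟩
  refine Pool.Agent.H859.AL.tends_one (C := |C|) (ρ := 1 - 1 / (32 * g)) _ hfinF
    (hpos'.mono fun N hN => hN.1) _ (by linarith) (by linarith) fun r => ?_
  filter_upwards [hvb, hv.eventually_ge_atTop r] with N hN hNr
  refine hN.trans ?_
  have h1 : (1 - 1 / (32 * (g : ℝ))) ^ v N ≤ (1 - 1 / (32 * (g : ℝ))) ^ r :=
    pow_le_pow_of_le_one (by linarith) (by linarith) hNr
  have h2 : (0 : ℝ) ≤ (1 - 1 / (32 * (g : ℝ))) ^ v N := pow_nonneg (by linarith) _
  have h3 : C * (1 - 1 / (32 * (g : ℝ))) ^ v N ≤ |C| * (1 - 1 / (32 * (g : ℝ))) ^ r :=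
    mul_le_mul (le_abs_self C) h1 h2 (abs_nonneg C)
  exact mul_le_mul_of_nonneg_right h3 (Nat.cast_nonneg _)

end Pool.Agent.Results.MP_1bad5e_ag.AlmostAllOverConstantTower
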