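import Pool.Agent.H856.AQ.Unirational

/-!
# The Tate conjecture for the Artin-Schreier surfaces `z ^ p - z = f(x, y)`, `f` of weight two, and the
# coverings `z ^ p - z = f(x_1, ..., x_m)`

Let `K` be an algebraically closed field of characteristic `p`, for example the algebraic closure of
a finitely generated field of characteristic `p`, or of the function field of a variety. A polynomial
`f` in `m` variables over `K` is of weight at most two if its monomials are products of at most two
factors `x_i ^ (p ^ s)`; all polynomials of degree two are examples, and the sums of the
`c x_i ^ (q + 1)` for powers `q` of `p`. The degree of `f` is unbounded, and the number of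
variables and of terms is arbitrary.

Theorem. There is a polynomial map `φ` of affine space onto itself with finite fibres, and a
polynomial `h`, such that `f ∘ φ = g + h ^ p - h`, so that `(x, z) ↦ (φ(x), z + h(x))` is a surjective
map with finite fibres of the covering `z ^ p - z = g(x)` onto the covering `X_f : z ^ p - z = f(x)`,
where `g` is a variable, or
`g = x_(a 1) L_1(x_(b 1)) + ... + x_(a r) L_r(x_(b r))`, or this plus one more term `x_u L_0(x_u)`,
with additive polynomials `L_i ≠ 0` and different variables. If `g` is a variable or `r > 0`, then
`X_f` is unirational. So `X_f` is unirational, or it is the image of the product of an affine space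
and the curve `z ^ p - z = u L_0(u)`, or of a union of affine spaces, by a map with finite fibres.

The Tate conjecture. (1) Let `m = 2`: every smooth projective model `X` of a surface
`z ^ p - z = f(x, y)`, `f` of weight at most two, over a finitely generated field, is unirational or
dominated by a product of curves over the algebraic closure, so the Tate conjecture holds for it:
Q1 for all these surfaces which are geometrically simply connected. The surfaces with `r = 1` are
unirational, so they are supersingular and their fundamental groups are finite. (2) For all `m` the
Tate conjecture holds for the divisors (and the one-dimensional cycles) on the smooth projective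
models of `X_f`; for `m = 3` these are all cycles. (3) If `2 r = m`, the covering `z ^ p - z = g(x)`
is a union of affine bundles: it maps to the affine space with the coordinates `x_(b i)`, the fibre is
an affine space of dimension `r` if not all `L_i(x_(b i))` are zero, and `p` such affine spaces if all
are zero. So the Tate conjecture holds for the smooth variety `X_f` in all codimensions. (4) `K` may
be the algebraic closure of a function field `k(S)`: the coefficients of `f` may depend in an arbitrary
way on parameters. If `S` is a curve and the generic fibre has `r > 0`, the total space is dominated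
by the product of a curve and a projective space, so the Tate conjecture holds for the divisors on its
smooth projective models; if `2 r = m`, the total space of the family of the `z ^ p - z = g(x)` is
over an open part of a covering of `S` a union of affine bundles over affine spaces and curves.

Proof. Polynomials are considered up to `h ^ p - h` in the perfect closure of the polynomial ring.
Then `f` becomes a hermitian form over the skew Laurent polynomial ring in the Frobenius. By
Krull's height theorem and the Nullstellensatz, a form in at least two variables has an isotropic
vector, since for vectors of large degree there are more coefficients than conditions, and the ring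
satisfies the Ore condition for the same reason. This gives the normal form by induction.
-/

set_option autoImplicit false

namespace Pool.Agent.Results.MP_1bad5e_ag.ArtinSchreierWeightTwo

open Pool.Agent.H856.AQ MvPolynomial

theorem result (p : ℕ) [Fact p.Prime] (K : Type) [Field K] [IsAlgClosed K] [CharP K p] (m : ℕ)
    (f : MvPolynomial (Fin m) K) (hf : f ∈ weightTwo K p m) :
    ∃ (φ : Fin m → MvPolynomial (Fin m) K) (g h : MvPolynomial (Fin m) K),
      Function.Surjective (polyMap φ) ∧ (∀ y, {x | polyMap φ x = y}.Finite) ∧
      aeval φ f = g + (h ^ p - h) ∧
      ((∃ t, g = X t) ∧ Unirational p f ∨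
        ∃ r, IsHyperbolic p r g ∧ (0 < r → Unirational p f)) := by
  obtain ⟨φ, g, h, hφ, hφf, heq, hcase⟩ := normal_poly m f hf
  refine ⟨φ, g, h, hφ, hφf, heq, ?_⟩
  rcases hcase with ⟨t, ht⟩ | ⟨r, hr⟩
  · refine Or.inl ⟨⟨t, ht⟩, ?_⟩
    refine unirational_of (a := t) (D := 1) (R := 0) hφ heq one_ne_zero (Subalgebra.one_mem _)
      (Subalgebra.zero_mem _) ?_
    rw [ht, mul_one, add_zero]
  · refine Or.inr ⟨r, hr, fun hr0 => ?_⟩
    obtain ⟨a, b, L, hinj, hL, hg⟩ := hr
    -- splitting off the first pair
    have hsupp : ∀ (v : Fin m) (Q : Polynomial K) (s : Set (Fin m)), v ∈ s →
        Polynomial.aeval (X v : MvPolynomial (Fin m) K) Q ∈ supported K s := by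
      intro v Q s hv
      have h1 : (X v : MvPolynomial (Fin m) K) ∈ supported K s := X_mem_supported.2 hv
      have h2 := Polynomial.aeval_mem_adjoin_singleton K (X v : MvPolynomial (Fin m) K) (p := Q)
      exact Algebra.adjoin_le (S := supported K s) (by simpa using h1) h2
    let i₀ : Fin r := ⟨0, hr0⟩
    have hab : ∀ i j, a i ≠ b j := fun i j h => by
      have := @hinj (Sum.inl i) (Sum.inr j) h
      exact absurd this (by simp)
    have haa : ∀ i, i ≠ i₀ → a i ≠ a i₀ := fun i hi h => by
      have := @hinj (Sum.inl i) (Sum.inl i₀) h
      exact hi (by simpa using this)
    have hsum : ∑ i ∈ Finset.univ.erase i₀, X (a i) * Polynomial.aeval (X (b i)) (L i) ∈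
        supported K ({a i₀}ᶜ : Set (Fin m)) := by
      refine Subalgebra.sum_mem _ fun i hi => Subalgebra.mul_mem _ ?_ ?_
      · exact X_mem_supported.2 (haa i (Finset.mem_erase.1 hi).1)
      · exact hsupp _ _ _ (hab i₀ i).symm
    have hD0 : Polynomial.aeval (X (b i₀) : MvPolynomial (Fin m) K) (L i₀) ≠ 0 := by
      intro h0
      apply (hL i₀).2
      apply Polynomial.funext
      intro c
      have := congrArg (eval fun _ => c) h0
      rw [eval_aeval_X, map_zero] at this
      rw [this, Polynomial.eval_zero]
    rcases hg with hg | ⟨u, hu, L₀, hL₀, hL₀0, hg⟩
    · refine unirational_of (a := a i₀) hφ heq hD0 (hsupp _ _ _ (hab i₀ i₀).symm) hsum ?_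
      rw [hg, ← Finset.add_sum_erase Finset.univ _ (Finset.mem_univ i₀)]
    · have hua : u ≠ a i₀ := fun h => hu ⟨Sum.inl i₀, h.symm⟩
      refine unirational_of (a := a i₀) hφ heq hD0 (hsupp _ _ _ (hab i₀ i₀).symm)
        (Subalgebra.add_mem _ hsum (Subalgebra.mul_mem _ (X_mem_supported.2 hua)
          (hsupp _ _ _ hua)) : _ + X u * Polynomial.aeval (X u) L₀ ∈ _) ?_
      rw [hg, ← Finset.add_sum_erase Finset.univ _ (Finset.mem_univ i₀), add_assoc]

end Pool.Agent.Results.MP_1bad5e_ag.ArtinSchreierWeightTwo
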